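import Pool.Agent.H92.HN.Kin

/-!
# Divergence theorem with polynomially bounded field
-/

namespace Pool.Agent.H92.HN

open Pool.Agent.H99.HM Pool.Agent.H99.HN
open MeasureTheory Set Filter Topology Real
open scoped ContDiff

/-- the cutoff -/
noncomputable def ch (N : ℕ) (k : ℝ) (r : ℝ) : ℝ := ((1 + r / k) ^ (N + 1))⁻¹

/-- its derivative -/
noncomputable def ch1 (N : ℕ) (k : ℝ) (r : ℝ) : ℝ := -(((N : ℝ) + 1) / k * ((1 + r / k) ^ (N + 2))⁻¹)

theorem ch_der (N : ℕ) {k r : ℝ} (hk : 0 < k) (hr : 0 < r) : HasDerivAt (ch N k) (ch1 N k r) r := by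
  have hy : 0 < 1 + r / k := by positivity
  have h1 : HasDerivAt (fun r : ℝ => 1 + r / k) (1 / k) r := by
    simpa using ((hasDerivAt_id r).div_const k).const_add 1
  have h2 := (h1.fun_pow (N + 1)).fun_inv (pow_ne_zero _ hy.ne')
  unfold ch1
  refine HasDerivAt.congr_deriv (f := ch N k) h2 ?_
  simp only [Nat.add_sub_cancel]
  push_cast
  field_simp
  ring

theorem ch_nn (N : ℕ) {k r : ℝ} (hk : 0 < k) (hr : 0 < r) : 0 < ch N k r := by
  unfold ch; positivity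

theorem ch_le (N : ℕ) {k r : ℝ} (hk : 0 < k) (hr : 0 < r) : ch N k r ≤ 1 := by
  unfold ch
  refine inv_le_one_of_one_le₀ (one_le_pow₀ ?_)
  have : 0 < r / k := by positivity
  linarith

theorem ch1_le (N : ℕ) {k r : ℝ} (hk : 1 ≤ k) (hr : 0 < r) : |ch1 N k r| ≤ ((N : ℝ) + 1) * ch N k r := by
  have hk0 : 0 < k := by linarith
  have h0 : 0 < r / k := by positivity
  have hy : 1 ≤ 1 + r / k := by linarith
  unfold ch1 ch
  rw [abs_neg, abs_of_nonneg (by positivity)]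
  have h1 : ((1 + r / k) ^ (N + 2))⁻¹ ≤ ((1 + r / k) ^ (N + 1))⁻¹ := by
    refine inv_anti₀ (by positivity) (pow_le_pow_right₀ hy (by omega))
  have h2 : ((N : ℝ) + 1) / k ≤ (N : ℝ) + 1 := div_le_self (by positivity) hk
  exact mul_le_mul h2 h1 (by positivity) (by positivity)

theorem pow_ch (N : ℕ) {k r : ℝ} (hk : 1 ≤ k) (hr : 0 < r) : r ^ N * ch N k r ≤ k ^ N := by
  have hk0 : 0 < k := by linarith
  have h0 : 0 < r / k := by positivity
  have hy : 1 ≤ 1 + r / k := by linarith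
  unfold ch
  rw [← div_eq_mul_inv, div_le_iff₀ (by positivity)]
  have e : r ^ N = k ^ N * (r / k) ^ N := by
    rw [← mul_pow]
    congr 1
    field_simp
  rw [e]
  refine mul_le_mul_of_nonneg_left ?_ (by positivity)
  calc (r / k) ^ N ≤ (1 + r / k) ^ N := pow_le_pow_left₀ h0.le (by linarith) N
    _ ≤ (1 + r / k) ^ (N + 1) := pow_le_pow_right₀ hy (by omega)

theorem ch_lim (N : ℕ) (r : ℝ) :
    Tendsto (fun k : ℕ => ch N ((k : ℝ) + 1) r) atTop (𝓝 1) := by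
  have h1 : Tendsto (fun k : ℕ => r / ((k : ℝ) + 1)) atTop (𝓝 0) :=
    Tendsto.const_div_atTop (tendsto_atTop_add_const_right _ 1 tendsto_natCast_atTop_atTop) r
  have h2 : Tendsto (fun k : ℕ => ((1 + r / ((k : ℝ) + 1)) ^ (N + 1))⁻¹) atTop
      (𝓝 (((1 + 0 : ℝ) ^ (N + 1))⁻¹)) :=
    ((h1.const_add 1).pow (N + 1)).inv₀ (by norm_num)
  simpa [ch] using h2

theorem ch1_lim (N : ℕ) (r : ℝ) :
    Tendsto (fun k : ℕ => ch1 N ((k : ℝ) + 1) r) atTop (𝓝 0) := by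
  have h1 : Tendsto (fun k : ℕ => r / ((k : ℝ) + 1)) atTop (𝓝 0) :=
    Tendsto.const_div_atTop (tendsto_atTop_add_const_right _ 1 tendsto_natCast_atTop_atTop) r
  have h3 : Tendsto (fun k : ℕ => ((N : ℝ) + 1) / ((k : ℝ) + 1)) atTop (𝓝 0) :=
    Tendsto.const_div_atTop (tendsto_atTop_add_const_right _ 1 tendsto_natCast_atTop_atTop) _
  have h2 : Tendsto (fun k : ℕ => ((1 + r / ((k : ℝ) + 1)) ^ (N + 2))⁻¹) atTop
      (𝓝 (((1 + 0 : ℝ) ^ (N + 2))⁻¹)) :=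
    ((h1.const_add 1).pow (N + 2)).inv₀ (by norm_num)
  have h4 := (h3.mul h2).neg
  simpa [ch1] using h4

theorem t_div (hz : T_divz) (hp : T_pint) : T_div := by
  intro u G hG hM B B1 hc hgr hgr1
  have hB : ContinuousOn B (Ioi 0) := c1_cont hc
  have hB1 : ContinuousOn B1 (Ioi 0) := hc.cont
  obtain ⟨p1, p2⟩ := hp u G hG hM
  have i2 := (p1 _ hB1 hgr1).1
  have hBr : ContinuousOn (fun r => B r / r) (Ioi 0) :=
    hB.div continuousOn_id fun r hr => (ne_of_gt hr)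
  have i3 := (p1 _ hBr (gr_div1 hgr)).1
  have i1 := (p1 _ hB (gr_to1 hgr)).1
  have i4 := (p1 _ hB (gr_to1 hgr)).2
  -- common constants
  obtain ⟨C, N, hC0, hCB, hCB1⟩ : ∃ (C : ℝ) (N : ℕ), 0 ≤ C ∧ (∀ r, 0 < r → |B r| ≤ C * (1 + r ^ N)) ∧
      ∀ r, 0 < r → |B1 r| ≤ C * (1 / r + r ^ N) := by
    obtain ⟨C, n, hC⟩ := hgr
    obtain ⟨D, m, hD⟩ := hgr1
    refine ⟨2 * (|C| + |D|), max n m, by positivity, fun r hr => ?_, fun r hr => ?_⟩
    · have h1 := pow_le_max hr (le_max_left n m)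
      have h0 : 0 ≤ r ^ max n m := by positivity
      calc |B r| ≤ C * (1 + r ^ n) := hC r hr
        _ ≤ |C| * (1 + r ^ n) := mul_le_mul_of_nonneg_right (le_abs_self C) (by positivity)
        _ ≤ |C| * (2 * (1 + r ^ max n m)) := mul_le_mul_of_nonneg_left (by linarith) (abs_nonneg _)
        _ ≤ (|C| + |D|) * (2 * (1 + r ^ max n m)) :=
            mul_le_mul_of_nonneg_right (by linarith [abs_nonneg D]) (by positivity)
        _ = _ := by ring
    · have h2 := pow_le_max hr (le_max_right n m)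
      have h0 : 0 ≤ r ^ max n m := by positivity
      have h5 : 0 ≤ 1 / r := by positivity
      have h6 := one_le_inv_add_pow hr (max n m)
      calc |B1 r| ≤ D * (1 / r + r ^ m) := hD r hr
        _ ≤ |D| * (1 / r + r ^ m) := mul_le_mul_of_nonneg_right (le_abs_self D) (by positivity)
        _ ≤ |D| * (2 * (1 / r + r ^ max n m)) :=
            mul_le_mul_of_nonneg_left (by linarith) (abs_nonneg _)
        _ ≤ (|C| + |D|) * (2 * (1 / r + r ^ max n m)) :=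
            mul_le_mul_of_nonneg_right (by linarith [abs_nonneg C]) (by positivity)
        _ = _ := by ring
  -- the truncated fields
  set Bk : ℕ → ℝ → ℝ := fun k r => B r * ch N ((k : ℝ) + 1) r with hBk
  set Bk1 : ℕ → ℝ → ℝ := fun k r => B1 r * ch N ((k : ℝ) + 1) r + B r * ch1 N ((k : ℝ) + 1) r with hBk1
  have hk1 : ∀ k : ℕ, (1 : ℝ) ≤ (k : ℝ) + 1 := fun k => by
    have : (0 : ℝ) ≤ k := Nat.cast_nonneg k
    linarith
  have hk0 : ∀ k : ℕ, (0 : ℝ) < (k : ℝ) + 1 := fun k => by linarith [hk1 k]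
  have hC1k : ∀ k, C1 (Bk k) (Bk1 k) := by
    intro k
    have hkk := hk0 k
    refine ⟨fun r hr => (hc.der r hr).mul (ch_der N hkk hr), ?_⟩
    have h1 : ContinuousOn (ch N ((k : ℝ) + 1)) (Ioi 0) :=
      fun r hr => (ch_der N hkk hr).continuousAt.continuousWithinAt
    have h2 : ContinuousOn (ch1 N ((k : ℝ) + 1)) (Ioi 0) := by
      unfold ch1
      refine ContinuousOn.neg (continuousOn_const.mul (ContinuousOn.inv₀ (by fun_prop) ?_))
      intro r hr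
      have hr' : 0 < r := hr
      have : 0 < 1 + r / ((k : ℝ) + 1) := by positivity
      positivity
    exact (hB1.mul h1).add (hB.mul h2)
  have hbd : ∀ k : ℕ, ∀ r, 0 < r → |Bk k r| ≤ C * (1 + ((k : ℝ) + 1) ^ N) ∧
      |Bk1 k r| ≤ (C * (1 + ((k : ℝ) + 1) ^ N) + ((N : ℝ) + 1) * (C * (1 + ((k : ℝ) + 1) ^ N)))
        * (1 / r + 1) := by
    intro k r hr
    have hkk := hk0 k
    have c0 := ch_nn N hkk hr
    have c1 := ch_le N hkk hr
    have c2 := ch1_le N (hk1 k) hr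
    have c3 := pow_ch N (hk1 k) hr
    have h5 : 0 ≤ 1 / r := by positivity
    have hKN : 0 ≤ ((k : ℝ) + 1) ^ N := by positivity
    have a1 : |B r| * ch N ((k : ℝ) + 1) r ≤ C * (1 + ((k : ℝ) + 1) ^ N) := by
      calc |B r| * ch N ((k : ℝ) + 1) r ≤ C * (1 + r ^ N) * ch N ((k : ℝ) + 1) r :=
            mul_le_mul_of_nonneg_right (hCB r hr) c0.le
        _ = C * (ch N ((k : ℝ) + 1) r + r ^ N * ch N ((k : ℝ) + 1) r) := by ring
        _ ≤ _ := mul_le_mul_of_nonneg_left (add_le_add c1 c3) hC0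
    have a2 : |B1 r| * ch N ((k : ℝ) + 1) r ≤ C * (1 / r + ((k : ℝ) + 1) ^ N) := by
      calc |B1 r| * ch N ((k : ℝ) + 1) r ≤ C * (1 / r + r ^ N) * ch N ((k : ℝ) + 1) r :=
            mul_le_mul_of_nonneg_right (hCB1 r hr) c0.le
        _ = C * (1 / r * ch N ((k : ℝ) + 1) r + r ^ N * ch N ((k : ℝ) + 1) r) := by ring
        _ ≤ _ := by
            refine mul_le_mul_of_nonneg_left (add_le_add ?_ c3) hC0
            calc 1 / r * ch N ((k : ℝ) + 1) r ≤ 1 / r * 1 := mul_le_mul_of_nonneg_left c1 h5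
              _ = 1 / r := mul_one _
    refine ⟨?_, ?_⟩
    · rw [hBk]
      simp only
      rw [abs_mul, abs_of_pos c0]
      exact a1
    · rw [hBk1]
      simp only
      have a3 : |B r * ch1 N ((k : ℝ) + 1) r| ≤ ((N : ℝ) + 1) * (C * (1 + ((k : ℝ) + 1) ^ N)) := by
        rw [abs_mul]
        calc |B r| * |ch1 N ((k : ℝ) + 1) r| ≤ |B r| * (((N : ℝ) + 1) * ch N ((k : ℝ) + 1) r) :=
              mul_le_mul_of_nonneg_left c2 (abs_nonneg _)
          _ = ((N : ℝ) + 1) * (|B r| * ch N ((k : ℝ) + 1) r) := by ring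
          _ ≤ _ := mul_le_mul_of_nonneg_left a1 (by positivity)
      have a4 : |B1 r * ch N ((k : ℝ) + 1) r| ≤ C * (1 / r + ((k : ℝ) + 1) ^ N) := by
        rw [abs_mul, abs_of_pos c0]
        exact a2
      have hkN : 1 ≤ ((k : ℝ) + 1) ^ N := one_le_pow₀ (hk1 k)
      have a5 : C * (1 / r + ((k : ℝ) + 1) ^ N) ≤ C * (1 + ((k : ℝ) + 1) ^ N) * (1 / r + 1) := by
        have : 1 / r + ((k : ℝ) + 1) ^ N ≤ (1 + ((k : ℝ) + 1) ^ N) * (1 / r + 1) := by
          nlinarith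
        calc C * (1 / r + ((k : ℝ) + 1) ^ N) ≤ C * ((1 + ((k : ℝ) + 1) ^ N) * (1 / r + 1)) :=
              mul_le_mul_of_nonneg_left this hC0
          _ = _ := by ring
      have a6 : ((N : ℝ) + 1) * (C * (1 + ((k : ℝ) + 1) ^ N)) ≤
          ((N : ℝ) + 1) * (C * (1 + ((k : ℝ) + 1) ^ N)) * (1 / r + 1) := by
        have h0 : 0 ≤ ((N : ℝ) + 1) * (C * (1 + ((k : ℝ) + 1) ^ N)) := by positivity
        nlinarith
      calc |B1 r * ch N ((k : ℝ) + 1) r + B r * ch1 N ((k : ℝ) + 1) r| ≤ _ := abs_add_le _ _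
        _ ≤ _ := add_le_add (a4.trans a5) (a3.trans a6)
        _ = _ := by ring
  -- integral identity for the truncated fields
  have hz1 : ∀ k : ℕ, Integrable (fun x : E3 => (Bk1 k ‖x‖ + 2 * Bk k ‖x‖ / ‖x‖) * ‖u x‖ ^ 2) ∧
      Integrable (fun x : E3 => Bk k ‖x‖ * ur u G x) ∧
      ∫ x : E3, ((Bk1 k ‖x‖ + 2 * Bk k ‖x‖ / ‖x‖) * ‖u x‖ ^ 2 + 2 * Bk k ‖x‖ * ur u G x) = 0 := by
    intro k
    set D := max 1 ((C * (1 + ((k : ℝ) + 1) ^ N)
      + ((N : ℝ) + 1) * (C * (1 + ((k : ℝ) + 1) ^ N)))) with hD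
    have hle : C * (1 + ((k : ℝ) + 1) ^ N) ≤ D := by
      refine le_trans ?_ (le_max_right _ _)
      have : 0 ≤ ((N : ℝ) + 1) * (C * (1 + ((k : ℝ) + 1) ^ N)) := by positivity
      linarith
    have hone : (1 : ℝ) ≤ D := le_max_left _ _
    have h := hz u G hG (Bk k) (Bk1 k) (fun _ => 1) D (hC1k k) (fun r hr => ⟨?_, ?_⟩)
      contDiff_const (fun x => ⟨?_, fun i => ?_⟩)
    · refine ⟨h.1, h.2.1, ?_⟩
      have h3 := h.2.2
      simp only [mul_one] at h3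
      rw [h3]
      have : ∀ x : E3, ∑ i, x i / ‖x‖ * pd i (fun _ => (1 : ℝ)) x = 0 := by
        intro x
        refine Finset.sum_eq_zero fun i _ => ?_
        unfold pd
        simp
      simp only [this, mul_zero, integral_zero, neg_zero]
    · exact (hbd k r hr).1.trans hle
    · refine (hbd k r hr).2.trans ?_
      exact mul_le_mul_of_nonneg_right (le_max_right _ _) (by positivity)
    · simpa using hone
    · unfold pd
      simp only [fderiv_fun_const, Pi.zero_apply, zero_apply, abs_zero]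
      linarith
  -- limit
  have hlim : Tendsto (fun k : ℕ => ∫ x : E3, ((Bk1 k ‖x‖ + 2 * Bk k ‖x‖ / ‖x‖) * ‖u x‖ ^ 2
      + 2 * Bk k ‖x‖ * ur u G x)) atTop
      (𝓝 (∫ x : E3, ((B1 ‖x‖ + 2 * B ‖x‖ / ‖x‖) * ‖u x‖ ^ 2 + 2 * B ‖x‖ * ur u G x))) := by
    refine tendsto_integral_of_dominated_convergence
      (fun x : E3 => (|B1 ‖x‖ * ‖u x‖ ^ 2| + ((N : ℝ) + 1) * |B ‖x‖ * ‖u x‖ ^ 2|
        + 2 * |B ‖x‖ / ‖x‖ * ‖u x‖ ^ 2|) + 2 * |B ‖x‖ * ur u G x|) ?_ ?_ ?_ ?_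
    · intro k
      obtain ⟨j1, j2, -⟩ := hz1 k
      have := (j1.add (j2.const_mul 2)).aestronglyMeasurable
      refine this.congr (Eventually.of_forall fun x => ?_)
      simp only [Pi.add_apply]
      ring
    · exact ((i2.abs.add (i1.abs.const_mul _)).add (i3.abs.const_mul 2)).add (i4.abs.const_mul 2)
    · intro k
      filter_upwards [ae_pos] with x hx
      have hkk := hk0 k
      have c0 := ch_nn N hkk hx
      have c1 := ch_le N hkk hx
      have c2 := ch1_le N (hk1 k) hx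
      have c4 : |ch N ((k : ℝ) + 1) ‖x‖| ≤ 1 := by rw [abs_of_pos c0]; exact c1
      have c5 : |ch1 N ((k : ℝ) + 1) ‖x‖| ≤ (N : ℝ) + 1 := by
        refine c2.trans ?_
        have h0 : (0 : ℝ) ≤ (N : ℝ) + 1 := by positivity
        nlinarith
      have e : (Bk1 k ‖x‖ + 2 * Bk k ‖x‖ / ‖x‖) * ‖u x‖ ^ 2 + 2 * Bk k ‖x‖ * ur u G x =
          (ch N ((k : ℝ) + 1) ‖x‖ * (B1 ‖x‖ * ‖u x‖ ^ 2)
          + ch1 N ((k : ℝ) + 1) ‖x‖ * (B ‖x‖ * ‖u x‖ ^ 2)
          + 2 * (ch N ((k : ℝ) + 1) ‖x‖ * (B ‖x‖ / ‖x‖ * ‖u x‖ ^ 2)))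
          + 2 * (ch N ((k : ℝ) + 1) ‖x‖ * (B ‖x‖ * ur u G x)) := by
        rw [hBk, hBk1]
        simp only
        ring
      rw [e, Real.norm_eq_abs]
      have t1 : |ch N ((k : ℝ) + 1) ‖x‖ * (B1 ‖x‖ * ‖u x‖ ^ 2)| ≤ |B1 ‖x‖ * ‖u x‖ ^ 2| := by
        rw [abs_mul]
        exact mul_le_of_le_one_left (abs_nonneg _) c4
      have t2 : |ch1 N ((k : ℝ) + 1) ‖x‖ * (B ‖x‖ * ‖u x‖ ^ 2)| ≤
          ((N : ℝ) + 1) * |B ‖x‖ * ‖u x‖ ^ 2| := by
        rw [abs_mul]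
        exact mul_le_mul_of_nonneg_right c5 (abs_nonneg _)
      have t3 : |2 * (ch N ((k : ℝ) + 1) ‖x‖ * (B ‖x‖ / ‖x‖ * ‖u x‖ ^ 2))| ≤
          2 * |B ‖x‖ / ‖x‖ * ‖u x‖ ^ 2| := by
        rw [abs_mul, abs_mul (ch N ((k : ℝ) + 1) ‖x‖), abs_of_pos (by norm_num : (0 : ℝ) < 2)]
        exact mul_le_mul_of_nonneg_left (mul_le_of_le_one_left (abs_nonneg _) c4) (by norm_num)
      have t4 : |2 * (ch N ((k : ℝ) + 1) ‖x‖ * (B ‖x‖ * ur u G x))| ≤ 2 * |B ‖x‖ * ur u G x| := by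
        rw [abs_mul, abs_mul (ch N ((k : ℝ) + 1) ‖x‖), abs_of_pos (by norm_num : (0 : ℝ) < 2)]
        exact mul_le_mul_of_nonneg_left (mul_le_of_le_one_left (abs_nonneg _) c4) (by norm_num)
      calc _ ≤ _ := abs_add_le _ _
        _ ≤ _ := add_le_add ((abs_add_le _ _).trans (add_le_add ((abs_add_le _ _).trans
          (add_le_add t1 t2)) t3)) t4
    · filter_upwards [ae_pos] with x hx
      have l1 := ch_lim N ‖x‖
      have l2 := ch1_lim N ‖x‖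
      have l3 : Tendsto (fun k : ℕ => Bk k ‖x‖) atTop (𝓝 (B ‖x‖)) := by
        have := l1.const_mul (B ‖x‖)
        rwa [mul_one] at this
      have l4 : Tendsto (fun k : ℕ => Bk1 k ‖x‖) atTop (𝓝 (B1 ‖x‖)) := by
        have := (l1.const_mul (B1 ‖x‖)).add (l2.const_mul (B ‖x‖))
        rwa [mul_one, mul_zero, add_zero] at this
      have l5 : Tendsto (fun k : ℕ => 2 * Bk k ‖x‖) atTop (𝓝 (2 * B ‖x‖)) := l3.const_mul 2
      exact ((l4.add (l5.div_const ‖x‖)).mul_const _).add (l5.mul_const _)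
  have hzero : ∫ x : E3, ((B1 ‖x‖ + 2 * B ‖x‖ / ‖x‖) * ‖u x‖ ^ 2 + 2 * B ‖x‖ * ur u G x) = 0 := by
    have h0 : (fun k : ℕ => ∫ x : E3, ((Bk1 k ‖x‖ + 2 * Bk k ‖x‖ / ‖x‖) * ‖u x‖ ^ 2
      + 2 * Bk k ‖x‖ * ur u G x)) = fun _ => 0 := by
      funext k
      exact (hz1 k).2.2
    rw [h0] at hlim
    exact tendsto_nhds_unique hlim tendsto_const_nhds
  have i7 : Integrable (fun x : E3 => (B1 ‖x‖ + 2 * B ‖x‖ / ‖x‖) * ‖u x‖ ^ 2) := by
    refine (i2.add (i3.const_mul 2)).congr (Eventually.of_forall fun x => ?_)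
    simp only [Pi.add_apply]
    ring
  obtain ⟨k1, j1⟩ := icmul i4 2
  obtain ⟨k2, j2⟩ := iadd i7 k1
  rw [← j1, ← j2, ← hzero]
  refine integral_congr_ae (Eventually.of_forall fun x => ?_)
  simp only
  ring

end Pool.Agent.H92.HN
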