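import Pool.Agent.H92.HN.Pint

/-!
# Ground state representation with a flux
-/

namespace Pool.Agent.H92.HN

open Pool.Agent.H99.HM Pool.Agent.H99.HN
open MeasureTheory Set Filter Topology Real
open scoped ContDiff

/-- pointwise square -/
theorem sq_pt (a b : ℂ) (q : ℝ) : 0 ≤ ‖b‖ ^ 2 + 2 * q * (starRingEnd ℂ a * b).re + q ^ 2 * ‖a‖ ^ 2 := by
  have h1 : ‖b + (q : ℂ) * a‖ ^ 2 = ‖b‖ ^ 2 + 2 * q * (starRingEnd ℂ a * b).re + q ^ 2 * ‖a‖ ^ 2 := by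
    rw [Complex.sq_norm, Complex.sq_norm, Complex.sq_norm, Complex.normSq_apply,
      Complex.normSq_apply, Complex.normSq_apply]
    simp only [Complex.add_re, Complex.mul_re, Complex.ofReal_re, Complex.ofReal_im, zero_mul,
      sub_zero, Complex.add_im, Complex.mul_im, add_zero, Complex.conj_re, Complex.conj_im]
    ring
  rw [← h1]
  positivity

theorem c1_cont {B B1 : ℝ → ℝ} (h : C1 B B1) : ContinuousOn B (Ioi 0) :=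
  fun r hr => (h.der r hr).continuousAt.continuousWithinAt

theorem t_kin (hd : T_div) (hp : T_pint) : T_kin := by
  intro u G hG hM h h1 B B1 hpos hc hgr hgr1 hF
  have hB : ContinuousOn B (Ioi 0) := c1_cont hF.c1
  have hB1 : ContinuousOn B1 (Ioi 0) := hF.c1.cont
  have hh : ContinuousOn h (Ioi 0) := c1_cont hc
  have hh1 : ContinuousOn h1 (Ioi 0) := hc.cont
  have hq : ContinuousOn (fun r => (B r + h1 r / 2) ^ 2 / h r) (Ioi 0) :=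
    ((hB.add (hh1.div_const 2)).pow 2).div hh fun r hr => (hpos r hr).ne'
  obtain ⟨p1, p2⟩ := hp u G hG hM
  have i1 := (p1 _ hq hF.grq).1
  have i2 := (p1 _ hB1 hF.gr1).1
  have hBr : ContinuousOn (fun r => B r / r) (Ioi 0) :=
    hB.div continuousOn_id fun r hr => (ne_of_gt hr)
  have i3 := (p1 _ hBr (gr_div1 hF.gr)).1
  have i4 := (p1 _ hB (gr_to1 hF.gr)).2
  have i5 := (p1 _ hh1 (gr_to1 hgr1)).2
  have i6 := (p2 _ hh hgr).2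
  have hdiv := hd u G hG hM B B1 hF.c1 hF.gr hF.gr1
  have i7 : Integrable (fun x : E3 => (B1 ‖x‖ + 2 * B ‖x‖ / ‖x‖) * ‖u x‖ ^ 2) := by
    refine (i2.add (i3.const_mul 2)).congr (Eventually.of_forall fun x => ?_)
    simp only [Pi.add_apply]
    ring
  have e1 : ∫ x : E3, (B1 ‖x‖ + 2 * B ‖x‖ / ‖x‖ - (B ‖x‖ + h1 ‖x‖ / 2) ^ 2 / h ‖x‖) * ‖u x‖ ^ 2
      = (∫ x : E3, (B1 ‖x‖ + 2 * B ‖x‖ / ‖x‖) * ‖u x‖ ^ 2)
        - ∫ x : E3, (B ‖x‖ + h1 ‖x‖ / 2) ^ 2 / h ‖x‖ * ‖u x‖ ^ 2 := by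
    rw [← integral_sub i7 i1]
    refine integral_congr_ae (Eventually.of_forall fun x => ?_)
    simp only
    ring
  have e2 : 0 ≤ ∫ x : E3, (h ‖x‖ * ‖dr G x‖ ^ 2 + (2 * (B ‖x‖ * ur u G x) + h1 ‖x‖ * ur u G x)
      + (B ‖x‖ + h1 ‖x‖ / 2) ^ 2 / h ‖x‖ * ‖u x‖ ^ 2) := by
    refine integral_nonneg_of_ae ?_
    filter_upwards [ae_pos] with x hx
    have hx1 := hpos ‖x‖ hx
    have h3 := sq_pt (u x) (dr G x) ((B ‖x‖ + h1 ‖x‖ / 2) / h ‖x‖)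
    have h4 := mul_nonneg hx1.le h3
    have e3 : h ‖x‖ * (‖dr G x‖ ^ 2 + 2 * ((B ‖x‖ + h1 ‖x‖ / 2) / h ‖x‖) *
        (starRingEnd ℂ (u x) * dr G x).re + ((B ‖x‖ + h1 ‖x‖ / 2) / h ‖x‖) ^ 2 * ‖u x‖ ^ 2) =
        h ‖x‖ * ‖dr G x‖ ^ 2 + (2 * (B ‖x‖ * ur u G x) + h1 ‖x‖ * ur u G x)
        + (B ‖x‖ + h1 ‖x‖ / 2) ^ 2 / h ‖x‖ * ‖u x‖ ^ 2 := by
      unfold ur
      field_simp
    rw [e3] at h4
    exact h4
  have e4 : ∫ x : E3, (h ‖x‖ * ‖dr G x‖ ^ 2 + (2 * (B ‖x‖ * ur u G x) + h1 ‖x‖ * ur u G x)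
      + (B ‖x‖ + h1 ‖x‖ / 2) ^ 2 / h ‖x‖ * ‖u x‖ ^ 2) = ((∫ x : E3, h ‖x‖ * ‖dr G x‖ ^ 2)
      + (2 * (∫ x : E3, B ‖x‖ * ur u G x) + ∫ x : E3, h1 ‖x‖ * ur u G x))
      + ∫ x : E3, (B ‖x‖ + h1 ‖x‖ / 2) ^ 2 / h ‖x‖ * ‖u x‖ ^ 2 := by
    obtain ⟨k1, j1⟩ := icmul i4 2
    obtain ⟨k2, j2⟩ := iadd k1 i5
    obtain ⟨k3, j3⟩ := iadd i6 k2
    obtain ⟨k4, j4⟩ := iadd k3 i1
    rw [j4, j3, j2, j1]
  rw [e4] at e2
  rw [e1]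
  linarith

end Pool.Agent.H92.HN
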