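import Pool.Agent.H92.HN.Kin

/-!
# The identity with weight `r^(2n)`
-/

namespace Pool.Agent.H92.HN

open Pool.Agent.H99.HM Pool.Agent.H99.HN
open MeasureTheory Set Filter Topology Real
open scoped ContDiff

theorem c1_pow (k : ℕ) : C1 (fun r => r ^ (k + 1)) (fun r => ((k : ℝ) + 1) * r ^ k) := by
  refine ⟨fun r _ => ?_, by fun_prop⟩
  have h := hasDerivAt_pow (k + 1) r
  simpa using h

/-- `hartree` is continuous -/
theorem hartree_cont (hb : T_hb) {u : E3 → ℂ} {G : Fin 3 → E3 → ℂ} (hG : IsH1 u G) :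
    Continuous (hartree u) := by
  have h := (hb u G hG).2.1
  have h0 : 0 ≤ 4 * ∫ y, g2 G y := mul_nonneg (by norm_num) (integral_nonneg (g2_nn G))
  have hl : LipschitzWith (Real.toNNReal (4 * ∫ y, g2 G y)) (hartree u) := by
    refine LipschitzWith.of_dist_le_mul fun x y => ?_
    rw [Real.dist_eq, dist_eq_norm, Real.coe_toNNReal _ h0]
    exact h x y
  exact hl.continuous

/-- multiplying an integrable function by the bounded potential -/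
theorem int_hartree (hb : T_hb) {u : E3 → ℂ} {G : Fin 3 → E3 → ℂ} (hG : IsH1 u G)
    {f : E3 → ℝ} (hf : Integrable f) : Integrable (fun x => f x * hartree u x) := by
  have hc := hartree_cont hb hG
  refine hf.mul_bdd (c := (∫ y, g2 G y) + mass u) hc.aestronglyMeasurable
    (Eventually.of_forall fun x => ?_)
  have h1 := ((hb u G hG).1 x).2
  rw [Real.norm_eq_abs, abs_of_nonneg h1.1]
  exact h1.2

/-- all weights `r^k` -/
theorem int_pow (hp : T_pint) {u : E3 → ℂ} {G : Fin 3 → E3 → ℂ} (hG : IsH1 u G)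
    (hM : Mom u G) (k : ℕ) :
    Integrable (fun x : E3 => ‖x‖ ^ k * ‖u x‖ ^ 2) ∧ Integrable (fun x : E3 => ‖x‖ ^ k * ur u G x) ∧
    Integrable (fun x : E3 => ‖x‖ ^ k * g2 G x) ∧ Integrable (fun x : E3 => ‖x‖ ^ k * ‖dr G x‖ ^ 2) := by
  obtain ⟨p1, p2⟩ := hp u G hG hM
  have hc : ContinuousOn (fun r : ℝ => r ^ k) (Ioi 0) := by fun_prop
  exact ⟨(p1 _ hc (gr_to1 (gr_pow k))).1, (p1 _ hc (gr_to1 (gr_pow k))).2, (p2 _ hc (gr_pow k)).1,
    (p2 _ hc (gr_pow k)).2⟩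

theorem int_zf (hp : T_pint) (hz : T_zf) {u : E3 → ℂ} {G : Fin 3 → E3 → ℂ} (hG : IsH1 u G)
    (hM : Mom u G) (k : ℕ) : Integrable (fun x : E3 => ‖x‖ ^ k * ‖u x‖ ^ 2 * Zf u x) := by
  obtain ⟨z1, z2, _⟩ := hz u G hG
  have i1 := (int_pow hp hG hM (k + 1)).1
  have hdom : Integrable (fun x : E3 => (4 * ∫ y, g2 G y) * (‖x‖ ^ (k + 1) * ‖u x‖ ^ 2)) :=
    i1.const_mul _
  refine hdom.mono' ((int_pow hp hG hM k).1.aestronglyMeasurable.mul z2)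
    (Eventually.of_forall fun x => ?_)
  have h1 := (z1 x).2
  rw [Real.norm_eq_abs, abs_mul, abs_of_nonneg (by positivity : 0 ≤ ‖x‖ ^ k * ‖u x‖ ^ 2)]
  calc ‖x‖ ^ k * ‖u x‖ ^ 2 * |Zf u x| ≤ ‖x‖ ^ k * ‖u x‖ ^ 2 * (4 * (∫ y, g2 G y) * ‖x‖) :=
        mul_le_mul_of_nonneg_left h1 (by positivity)
    _ = _ := by ring

/-- divergence theorem for powers -/
theorem div_pow' (hd : T_div) {u : E3 → ℂ} {G : Fin 3 → E3 → ℂ} (hG : IsH1 u G)
    (hM : Mom u G) (k : ℕ) :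
    ((k : ℝ) + 3) * (∫ x : E3, ‖x‖ ^ k * ‖u x‖ ^ 2) + 2 * (∫ x : E3, ‖x‖ ^ (k + 1) * ur u G x) = 0 := by
  have h := hd u G hG hM _ _ (c1_pow k) (gr_pow (k + 1)) (gr_to1 (gr_cmul (gr_pow k) _))
  have e : ∫ x : E3, (((k : ℝ) + 1) * ‖x‖ ^ k + 2 * ‖x‖ ^ (k + 1) / ‖x‖) * ‖u x‖ ^ 2 =
      ((k : ℝ) + 3) * ∫ x : E3, ‖x‖ ^ k * ‖u x‖ ^ 2 := by
    rw [← integral_const_mul]
    refine integral_congr_ae ?_
    filter_upwards [ae_pos] with x hx
    have : 2 * ‖x‖ ^ (k + 1) / ‖x‖ = 2 * ‖x‖ ^ k := by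
      field_simp
      ring
    rw [this]
    ring
  rw [e] at h
  exact h

theorem t_kn (he : T_ehp) (hd : T_div) (hr : T_rsp) (hi : T_ibp) (hp : T_pint) (hb : T_hb)
    (hz : T_zf) : T_kn := by
  intro u lam G hS hG hM n hn
  obtain ⟨m, rfl⟩ : ∃ m, n = m + 1 := ⟨n - 1, by omega⟩
  -- integrals
  obtain ⟨iI, ib, iK, iKr⟩ := int_pow hp hG hM (2 * m + 2)
  obtain ⟨iP1, ia, -, -⟩ := int_pow hp hG hM (2 * m + 1)
  obtain ⟨iP, -, -, -⟩ := int_pow hp hG hM (2 * m)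
  obtain ⟨-, ic, -, -⟩ := int_pow hp hG hM (2 * m + 3)
  have iVh := int_hartree hb hG iI
  have id := int_hartree hb hG ic
  have iZ := int_zf hp hz hG hM (2 * m + 2)
  set I := ∫ x : E3, ‖x‖ ^ (2 * m + 2) * ‖u x‖ ^ 2 with hI
  set P := ∫ x : E3, ‖x‖ ^ (2 * m) * ‖u x‖ ^ 2 with hP
  set P1 := ∫ x : E3, ‖x‖ ^ (2 * m + 1) * ‖u x‖ ^ 2 with hP1
  set K := ∫ x : E3, ‖x‖ ^ (2 * m + 2) * g2 G x with hK
  set Kr := ∫ x : E3, ‖x‖ ^ (2 * m + 2) * ‖dr G x‖ ^ 2 with hKr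
  set Vh := ∫ x : E3, ‖x‖ ^ (2 * m + 2) * ‖u x‖ ^ 2 * hartree u x with hVh
  set Z := ∫ x : E3, ‖x‖ ^ (2 * m + 2) * ‖u x‖ ^ 2 * Zf u x with hZ
  set a := ∫ x : E3, ‖x‖ ^ (2 * m + 1) * ur u G x with ha
  set b := ∫ x : E3, ‖x‖ ^ (2 * m + 2) * ur u G x with hbb
  set c := ∫ x : E3, ‖x‖ ^ (2 * m + 3) * ur u G x with hc
  set d := ∫ x : E3, ‖x‖ ^ (2 * m + 3) * ur u G x * hartree u x with hdd
  -- 1: energy identity
  have E1 : K + (2 * m + 2) * a - P1 + Vh = lam * I := by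
    have h := he u lam G hS hG hM _ _ (c1_pow (2 * m + 1)) (gr_pow (2 * m + 1 + 1))
      (gr_cmul (gr_pow (2 * m + 1)) _)
    have e1 : ∫ x : E3, (((2 * m + 1 : ℕ) : ℝ) + 1) * ‖x‖ ^ (2 * m + 1) * ur u G x =
        (2 * m + 2) * a := by
      rw [ha, ← integral_const_mul]
      refine integral_congr_ae (Eventually.of_forall fun x => ?_)
      push_cast
      ring
    have e2 : ∫ x : E3, ‖x‖ ^ (2 * m + 1 + 1) / ‖x‖ * ‖u x‖ ^ 2 = P1 := by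
      refine integral_congr_ae ?_
      filter_upwards [ae_pos] with x hx
      have : ‖x‖ ^ (2 * m + 1 + 1) / ‖x‖ = ‖x‖ ^ (2 * m + 1) := by
        field_simp
        ring
      rw [this]
    rw [e1, e2] at h
    exact h
  -- 2: divergence
  have E2 : (2 * m + 3) * P + 2 * a = 0 := by
    have h := div_pow' hd hG hM (2 * m)
    push_cast at h
    exact h
  have E3' : (2 * m + 5) * I + 2 * c = 0 := by
    have h := div_pow' hd hG hM (2 * m + 2)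
    push_cast at h
    rw [show (2 * (m : ℝ) + 5) = (2 * (m : ℝ) + 2 + 3) by ring]
    exact h
  have E4 : (2 * m + 4) * P1 + 2 * b = 0 := by
    have h := div_pow' hd hG hM (2 * m + 1)
    push_cast at h
    rw [show (2 * (m : ℝ) + 4) = (2 * (m : ℝ) + 1 + 3) by ring]
    exact h
  have hq : Gr (fun r => r ^ (2 * m + 2 + 1) / r) := by
    refine gr_congr (gr_pow (2 * m + 2)) fun r hr => ?_
    field_simp
    ring
  -- 5: Rellich
  have E5 : lam * c + b - d = (m + 1 / 2) * Kr - (m + 3 / 2) * (K - Kr) := by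
    have h := hr u lam G hS hG hM _ _ (c1_pow (2 * m + 2)) hq (gr_cmul (gr_pow (2 * m + 2)) _)
    have e1 : ∫ x : E3, ‖x‖ ^ (2 * m + 2 + 1) * ((lam + 1 / ‖x‖ - hartree u x) * ur u G x) =
        lam * c + b - d := by
      obtain ⟨k1, j1⟩ := icmul ic lam
      obtain ⟨k2, j2⟩ := iadd k1 ib
      obtain ⟨k3, j3⟩ := isub k2 id
      rw [hc, hbb, hdd, ← j1, ← j2, ← j3]
      refine integral_congr_ae ?_
      filter_upwards [ae_pos] with x hx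
      have : ‖x‖ ^ (2 * m + 2 + 1) * (1 / ‖x‖) = ‖x‖ ^ (2 * m + 2) := by
        field_simp
        ring
      calc ‖x‖ ^ (2 * m + 2 + 1) * ((lam + 1 / ‖x‖ - hartree u x) * ur u G x) =
          lam * (‖x‖ ^ (2 * m + 3) * ur u G x) + (‖x‖ ^ (2 * m + 2 + 1) * (1 / ‖x‖)) * ur u G x
            - ‖x‖ ^ (2 * m + 3) * ur u G x * hartree u x := by ring
        _ = _ := by rw [this]
    have e2 : ∫ x : E3, ((((2 * m + 2 : ℕ) : ℝ) + 1) * ‖x‖ ^ (2 * m + 2) / 2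
        - ‖x‖ ^ (2 * m + 2 + 1) / ‖x‖) * ‖dr G x‖ ^ 2 = (m + 1 / 2) * Kr := by
      rw [hKr, ← integral_const_mul]
      refine integral_congr_ae ?_
      filter_upwards [ae_pos] with x hx
      have : ‖x‖ ^ (2 * m + 2 + 1) / ‖x‖ = ‖x‖ ^ (2 * m + 2) := by
        field_simp
        ring
      rw [this]
      push_cast
      ring
    have e3 : ∫ x : E3, (((2 * m + 2 : ℕ) : ℝ) + 1) * ‖x‖ ^ (2 * m + 2) / 2 *
        (g2 G x - ‖dr G x‖ ^ 2) = (m + 3 / 2) * (K - Kr) := by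
      obtain ⟨k1, j1⟩ := isub iK iKr
      obtain ⟨k2, j2⟩ := icmul k1 (m + 3 / 2)
      rw [hK, hKr, ← j1, ← j2]
      refine integral_congr_ae (Eventually.of_forall fun x => ?_)
      push_cast
      ring
    rw [e1, e2, e3] at h
    exact h
  -- 6: Hartree
  have E6 : (2 * m + 5) * Vh + 2 * d = Z := by
    have h := hi u G hG hM _ _ (c1_pow (2 * m + 2)) hq (gr_cmul (gr_pow (2 * m + 2)) _)
    have e1 : ∫ x : E3, ((((2 * m + 2 : ℕ) : ℝ) + 1) * ‖x‖ ^ (2 * m + 2)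
        + 2 * ‖x‖ ^ (2 * m + 2 + 1) / ‖x‖) * ‖u x‖ ^ 2 * hartree u x = (2 * m + 5) * Vh := by
      rw [hVh, ← integral_const_mul]
      refine integral_congr_ae ?_
      filter_upwards [ae_pos] with x hx
      have : 2 * ‖x‖ ^ (2 * m + 2 + 1) / ‖x‖ = 2 * ‖x‖ ^ (2 * m + 2) := by
        field_simp
        ring
      rw [this]
      push_cast
      ring
    have e2 : ∫ x : E3, ‖x‖ ^ (2 * m + 2 + 1) / ‖x‖ * ‖u x‖ ^ 2 * Zf u x = Z := by
      refine integral_congr_ae ?_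
      filter_upwards [ae_pos] with x hx
      have : ‖x‖ ^ (2 * m + 2 + 1) / ‖x‖ = ‖x‖ ^ (2 * m + 2) := by
        field_simp
        ring
      rw [this]
    rw [e1, e2] at h
    exact h
  -- the right side
  have E7 : ∫ x : E3, ‖x‖ ^ (2 * (m + 1)) * (-1 / (2 * ‖x‖) + hartree u x - Zf u x / 2) *
      ‖u x‖ ^ 2 = Vh - P1 / 2 - Z / 2 := by
    obtain ⟨k1, j1⟩ := icmul iP1 (1 / 2)
    obtain ⟨k2, j2⟩ := icmul iZ (1 / 2)
    obtain ⟨k3, j3⟩ := isub iVh k1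
    obtain ⟨k4, j4⟩ := isub k3 k2
    have : Vh - P1 / 2 - Z / 2 = Vh - 1 / 2 * P1 - 1 / 2 * Z := by ring
    rw [this, hVh, hP1, hZ, ← j1, ← j2, ← j3, ← j4]
    refine integral_congr_ae ?_
    filter_upwards [ae_pos] with x hx
    have h2 : ‖x‖ ^ (2 * (m + 1)) = ‖x‖ ^ (2 * m + 2) := by congr 1
    have h3 : ‖x‖ ^ (2 * m + 2) * (-1 / (2 * ‖x‖)) = - (1 / 2 * ‖x‖ ^ (2 * m + 1)) := by
      field_simp
      ring
    rw [h2]
    calc ‖x‖ ^ (2 * m + 2) * (-1 / (2 * ‖x‖) + hartree u x - Zf u x / 2) * ‖u x‖ ^ 2 =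
        (‖x‖ ^ (2 * m + 2) * (-1 / (2 * ‖x‖))) * ‖u x‖ ^ 2
          + ‖x‖ ^ (2 * m + 2) * ‖u x‖ ^ 2 * hartree u x
          - 1 / 2 * (‖x‖ ^ (2 * m + 2) * ‖u x‖ ^ 2 * Zf u x) := by ring
      _ = _ := by rw [h3]; ring
  rw [E7]
  have h8 : ∫ x : E3, ‖x‖ ^ (2 * (m + 1) - 2) * ‖u x‖ ^ 2 = P := by
    rw [hP]
    congr 1
  have h9 : ∫ x : E3, ‖x‖ ^ (2 * (m + 1)) * ‖u x‖ ^ 2 = I := by
    rw [hI]
    congr 1
  have h10 : ∫ x : E3, ‖x‖ ^ (2 * (m + 1)) * ‖dr G x‖ ^ 2 = Kr := by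
    rw [hKr]
    congr 1
  rw [h8, h9, h10]
  push_cast
  have hm : (0 : ℝ) ≤ m := Nat.cast_nonneg m
  have ea : a = -((2 * m + 3) / 2 * P) := by linarith
  have ec : c = -((2 * m + 5) / 2 * I) := by linarith
  have eb : b = -((m + 2) * P1) := by linarith
  have ed : d = Z / 2 - (2 * m + 5) / 2 * Vh := by linarith
  rw [ea] at E1
  rw [ec, eb, ed] at E5
  have eK : K = lam * I + P1 - Vh + (m + 1) * (2 * m + 3) * P := by linarith
  rw [eK] at E5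
  linear_combination -E5

end Pool.Agent.H92.HN
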