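import Pool.Agent.H99.HN.Targets

/-!
# Integrability of polynomially bounded weights
-/

namespace Pool.Agent.H92.HN

open Pool.Agent.H99.HM Pool.Agent.H99.HN
open MeasureTheory Set Filter Topology Real
open scoped ContDiff

theorem ae_ne0 : ∀ᵐ x : E3, x ≠ 0 := by
  have := (measure_singleton (μ := (volume : Measure E3)) (0 : E3))
  exact compl_mem_ae_iff.mpr this

theorem ae_pos : ∀ᵐ x : E3, 0 < ‖x‖ := by
  filter_upwards [ae_ne0] with x hx
  exact norm_pos_iff.mpr hx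

/-- a profile continuous on `(0,∞)` gives an a.e. strongly measurable radial function -/
theorem aesm_rad {f : ℝ → ℝ} (hf : ContinuousOn f (Ioi 0)) :
    AEStronglyMeasurable (fun x : E3 => f ‖x‖) volume := by
  have h1 : ContinuousOn (fun x : E3 => f ‖x‖) {x : E3 | x ≠ 0} := by
    refine hf.comp continuous_norm.continuousOn ?_
    intro x hx
    exact norm_pos_iff.mpr hx
  have h2 := h1.aestronglyMeasurable (μ := volume)
    (isOpen_ne : IsOpen {x : E3 | x ≠ 0}).measurableSet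
  have e : (volume : Measure E3).restrict {x : E3 | x ≠ 0} = volume :=
    Measure.restrict_eq_self_of_ae_mem ae_ne0
  rwa [e] at h2

theorem dr_sq_le (G : Fin 3 → E3 → ℂ) (x : E3) : ‖dr G x‖ ^ 2 ≤ g2 G x := by
  unfold dr g2
  have h1 : ‖∑ i, ((x i / ‖x‖ : ℝ) : ℂ) * G i x‖ ≤ ∑ i, |x i / ‖x‖| * ‖G i x‖ := by
    refine (norm_sum_le _ _).trans (le_of_eq ?_)
    refine Finset.sum_congr rfl fun i _ => ?_
    rw [norm_mul, Complex.norm_real, Real.norm_eq_abs]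
  have h2 : (∑ i, |x i / ‖x‖| * ‖G i x‖) ^ 2 ≤ (∑ i, |x i / ‖x‖| ^ 2) * ∑ i, ‖G i x‖ ^ 2 :=
    Finset.sum_mul_sq_le_sq_mul_sq _ _ _
  have h3 : ∑ i, |x i / ‖x‖| ^ 2 ≤ 1 := by
    have e : ∑ i, |x i / ‖x‖| ^ 2 = (∑ i, x i ^ 2) / ‖x‖ ^ 2 := by
      rw [Finset.sum_div]
      refine Finset.sum_congr rfl fun i _ => ?_
      rw [sq_abs, div_pow]
    have e2 : ∑ i, x i ^ 2 = ‖x‖ ^ 2 := by
      rw [EuclideanSpace.norm_sq_eq]
      refine Finset.sum_congr rfl fun i _ => ?_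
      rw [Real.norm_eq_abs, sq_abs]
    rw [e, e2]
    exact div_self_le_one _
  have h4 : 0 ≤ ∑ i, ‖G i x‖ ^ 2 := Finset.sum_nonneg fun i _ => by positivity
  calc ‖∑ i, ((x i / ‖x‖ : ℝ) : ℂ) * G i x‖ ^ 2 ≤ (∑ i, |x i / ‖x‖| * ‖G i x‖) ^ 2 :=
        pow_le_pow_left₀ (norm_nonneg _) h1 2
    _ ≤ (∑ i, |x i / ‖x‖| ^ 2) * ∑ i, ‖G i x‖ ^ 2 := h2
    _ ≤ 1 * ∑ i, ‖G i x‖ ^ 2 := mul_le_mul_of_nonneg_right h3 h4
    _ = ∑ i, ‖G i x‖ ^ 2 := one_mul _

theorem g2_nn (G : Fin 3 → E3 → ℂ) (x : E3) : 0 ≤ g2 G x :=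
  Finset.sum_nonneg fun i _ => by positivity

theorem ur_le (u : E3 → ℂ) (G : Fin 3 → E3 → ℂ) (x : E3) : |ur u G x| ≤ ‖u x‖ * ‖dr G x‖ := by
  unfold ur
  refine (Complex.abs_re_le_norm _).trans (le_of_eq ?_)
  rw [norm_mul, RCLike.norm_conj]

theorem ur_le2 (u : E3 → ℂ) (G : Fin 3 → E3 → ℂ) (x : E3) :
    |ur u G x| ≤ ‖u x‖ ^ 2 + g2 G x := by
  refine (ur_le u G x).trans ?_
  have h1 := dr_sq_le G x
  nlinarith [sq_nonneg (‖u x‖ - ‖dr G x‖), sq_nonneg (‖u x‖), sq_nonneg (‖dr G x‖)]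

theorem aesm_dr {u : E3 → ℂ} {G : Fin 3 → E3 → ℂ} (hG : IsH1 u G) :
    AEStronglyMeasurable (dr G) volume := by
  unfold dr
  refine Finset.aestronglyMeasurable_fun_sum _ fun i _ => ?_
  refine AEStronglyMeasurable.mul ?_ (hG.memLp_grad i).aestronglyMeasurable
  have hm : Measurable fun x : E3 => ((x i / ‖x‖ : ℝ) : ℂ) := by
    refine Complex.measurable_ofReal.comp ?_
    have h1 : Continuous fun x : E3 => x i := by fun_prop
    exact h1.measurable.div continuous_norm.measurable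
  exact hm.aestronglyMeasurable

theorem aesm_ur {u : E3 → ℂ} {G : Fin 3 → E3 → ℂ} (hG : IsH1 u G) :
    AEStronglyMeasurable (ur u G) volume := by
  unfold ur
  have h1 : AEStronglyMeasurable (fun x => starRingEnd ℂ (u x)) volume :=
    Complex.continuous_conj.comp_aestronglyMeasurable hG.memLp.aestronglyMeasurable
  exact Complex.continuous_re.comp_aestronglyMeasurable (h1.mul (aesm_dr hG))

theorem aesm_usq {u : E3 → ℂ} {G : Fin 3 → E3 → ℂ} (hG : IsH1 u G) :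
    AEStronglyMeasurable (fun x => ‖u x‖ ^ 2) volume :=
  hG.memLp.aestronglyMeasurable.norm.pow 2

theorem aesm_g2 {u : E3 → ℂ} {G : Fin 3 → E3 → ℂ} (hG : IsH1 u G) :
    AEStronglyMeasurable (g2 G) volume := by
  unfold g2
  refine Finset.aestronglyMeasurable_fun_sum _ fun i _ => ?_
  exact (hG.memLp_grad i).aestronglyMeasurable.norm.pow 2

theorem iadd {f g : E3 → ℝ} (hf : Integrable f) (hg : Integrable g) :
    Integrable (fun x => f x + g x) ∧ ∫ x, (f x + g x) = (∫ x, f x) + ∫ x, g x :=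
  ⟨hf.add hg, integral_add hf hg⟩

theorem isub {f g : E3 → ℝ} (hf : Integrable f) (hg : Integrable g) :
    Integrable (fun x => f x - g x) ∧ ∫ x, (f x - g x) = (∫ x, f x) - ∫ x, g x :=
  ⟨hf.sub hg, integral_sub hf hg⟩

theorem icmul {f : E3 → ℝ} (hf : Integrable f) (c : ℝ) :
    Integrable (fun x => c * f x) ∧ ∫ x, c * f x = c * ∫ x, f x :=
  ⟨hf.const_mul c, integral_const_mul c f⟩

/-! ### growth classes -/

theorem one_le_inv_add_pow {r : ℝ} (hr : 0 < r) (n : ℕ) : 1 ≤ 1 / r + r ^ n := by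
  rcases le_total r 1 with h | h
  · have h1 : 1 ≤ 1 / r := by
      rw [le_div_iff₀ hr]
      linarith
    have h2 : 0 ≤ r ^ n := by positivity
    linarith
  · have h1 : 1 ≤ r ^ n := one_le_pow₀ h
    have h2 : 0 ≤ 1 / r := by positivity
    linarith

theorem pow_le_max {r : ℝ} (hr : 0 < r) {m n : ℕ} (hmn : m ≤ n) : r ^ m ≤ 1 + r ^ n := by
  rcases le_total r 1 with h | h
  · have h1 : r ^ m ≤ 1 := pow_le_one₀ hr.le h
    have h2 : 0 ≤ r ^ n := by positivity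
    linarith
  · have h1 : r ^ m ≤ r ^ n := pow_le_pow_right₀ h hmn
    linarith

theorem gr_to1 {f : ℝ → ℝ} (h : Gr f) : Gr1 f := by
  obtain ⟨C, n, hC⟩ := h
  refine ⟨2 * |C|, n, fun r hr => ?_⟩
  have h1 := one_le_inv_add_pow hr n
  have h2 : 0 ≤ r ^ n := by positivity
  have h3 : 0 ≤ 1 / r := by positivity
  have h4 : C * (1 + r ^ n) ≤ |C| * (1 + r ^ n) :=
    mul_le_mul_of_nonneg_right (le_abs_self C) (by positivity)
  have h5 : |C| * (1 + r ^ n) ≤ |C| * (2 * (1 / r + r ^ n)) :=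
    mul_le_mul_of_nonneg_left (by linarith) (abs_nonneg _)
  calc |f r| ≤ C * (1 + r ^ n) := hC r hr
    _ ≤ |C| * (1 + r ^ n) := h4
    _ ≤ |C| * (2 * (1 / r + r ^ n)) := h5
    _ = 2 * |C| * (1 / r + r ^ n) := by ring

theorem gr_div1 {f : ℝ → ℝ} (h : Gr f) : Gr1 (fun r => f r / r) := by
  obtain ⟨C, n, hC⟩ := h
  refine ⟨2 * |C|, n, fun r hr => ?_⟩
  have h2 : 0 ≤ r ^ n := by positivity
  have h3 : 0 ≤ 1 / r := by positivity
  have h4 : C * (1 + r ^ n) ≤ |C| * (1 + r ^ n) :=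
    mul_le_mul_of_nonneg_right (le_abs_self C) (by positivity)
  have h5 : (1 + r ^ n) / r ≤ 2 * (1 / r + r ^ n) := by
    have h6 : r ^ n / r ≤ 1 / r + r ^ n := by
      rcases le_total r 1 with h | h
      · have : r ^ n / r ≤ 1 / r := div_le_div_of_nonneg_right (pow_le_one₀ hr.le h) hr.le
        linarith
      · have : r ^ n / r ≤ r ^ n := div_le_self h2 h
        linarith
    rw [add_div]
    linarith
  rw [abs_div, abs_of_pos hr]
  calc |f r| / r ≤ (|C| * (1 + r ^ n)) / r :=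
        div_le_div_of_nonneg_right ((hC r hr).trans h4) hr.le
    _ = |C| * ((1 + r ^ n) / r) := by ring
    _ ≤ |C| * (2 * (1 / r + r ^ n)) := mul_le_mul_of_nonneg_left h5 (abs_nonneg _)
    _ = 2 * |C| * (1 / r + r ^ n) := by ring

theorem gr_add {f g : ℝ → ℝ} (hf : Gr f) (hg : Gr g) : Gr (fun r => f r + g r) := by
  obtain ⟨C, n, hC⟩ := hf
  obtain ⟨D, m, hD⟩ := hg
  refine ⟨2 * (|C| + |D|), max n m, fun r hr => ?_⟩
  have h1 := pow_le_max hr (le_max_left n m)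
  have h2 := pow_le_max hr (le_max_right n m)
  have h0 : 0 ≤ r ^ max n m := by positivity
  have h3 : |f r| ≤ |C| * (2 * (1 + r ^ max n m)) := by
    calc |f r| ≤ C * (1 + r ^ n) := hC r hr
      _ ≤ |C| * (1 + r ^ n) := mul_le_mul_of_nonneg_right (le_abs_self C) (by positivity)
      _ ≤ _ := mul_le_mul_of_nonneg_left (by linarith) (abs_nonneg _)
  have h4 : |g r| ≤ |D| * (2 * (1 + r ^ max n m)) := by
    calc |g r| ≤ D * (1 + r ^ m) := hD r hr
      _ ≤ |D| * (1 + r ^ m) := mul_le_mul_of_nonneg_right (le_abs_self D) (by positivity)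
      _ ≤ _ := mul_le_mul_of_nonneg_left (by linarith) (abs_nonneg _)
  calc |f r + g r| ≤ |f r| + |g r| := abs_add_le _ _
    _ ≤ _ := add_le_add h3 h4
    _ = _ := by ring

theorem gr1_add {f g : ℝ → ℝ} (hf : Gr1 f) (hg : Gr1 g) : Gr1 (fun r => f r + g r) := by
  obtain ⟨C, n, hC⟩ := hf
  obtain ⟨D, m, hD⟩ := hg
  refine ⟨2 * (|C| + |D|), max n m, fun r hr => ?_⟩
  have h1 := pow_le_max hr (le_max_left n m)
  have h2 := pow_le_max hr (le_max_right n m)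
  have h0 : 0 ≤ r ^ max n m := by positivity
  have h5 : 0 ≤ 1 / r := by positivity
  have h6 := one_le_inv_add_pow hr (max n m)
  have h3 : |f r| ≤ |C| * (2 * (1 / r + r ^ max n m)) := by
    calc |f r| ≤ C * (1 / r + r ^ n) := hC r hr
      _ ≤ |C| * (1 / r + r ^ n) := mul_le_mul_of_nonneg_right (le_abs_self C) (by positivity)
      _ ≤ _ := mul_le_mul_of_nonneg_left (by linarith) (abs_nonneg _)
  have h4 : |g r| ≤ |D| * (2 * (1 / r + r ^ max n m)) := by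
    calc |g r| ≤ D * (1 / r + r ^ m) := hD r hr
      _ ≤ |D| * (1 / r + r ^ m) := mul_le_mul_of_nonneg_right (le_abs_self D) (by positivity)
      _ ≤ _ := mul_le_mul_of_nonneg_left (by linarith) (abs_nonneg _)
  calc |f r + g r| ≤ |f r| + |g r| := abs_add_le _ _
    _ ≤ _ := add_le_add h3 h4
    _ = _ := by ring

theorem gr_cmul {f : ℝ → ℝ} (h : Gr f) (c : ℝ) : Gr (fun r => c * f r) := by
  obtain ⟨C, n, hC⟩ := h
  refine ⟨|c| * C, n, fun r hr => ?_⟩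
  rw [abs_mul, mul_assoc]
  exact mul_le_mul_of_nonneg_left (hC r hr) (abs_nonneg _)

theorem gr1_cmul {f : ℝ → ℝ} (h : Gr1 f) (c : ℝ) : Gr1 (fun r => c * f r) := by
  obtain ⟨C, n, hC⟩ := h
  refine ⟨|c| * C, n, fun r hr => ?_⟩
  rw [abs_mul, mul_assoc]
  exact mul_le_mul_of_nonneg_left (hC r hr) (abs_nonneg _)

theorem gr_congr {f g : ℝ → ℝ} (h : Gr f) (e : ∀ r, 0 < r → g r = f r) : Gr g := by
  obtain ⟨C, n, hC⟩ := h
  exact ⟨C, n, fun r hr => by rw [e r hr]; exact hC r hr⟩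

theorem gr1_congr {f g : ℝ → ℝ} (h : Gr1 f) (e : ∀ r, 0 < r → g r = f r) : Gr1 g := by
  obtain ⟨C, n, hC⟩ := h
  exact ⟨C, n, fun r hr => by rw [e r hr]; exact hC r hr⟩

theorem gr_pow (n : ℕ) : Gr (fun r => r ^ n) := by
  refine ⟨1, n, fun r hr => ?_⟩
  have h0 : 0 ≤ r ^ n := by positivity
  rw [abs_of_nonneg h0]
  linarith

theorem t_pint (h1 : T_hardy) (h2 : T_hb) : T_pint := by
  intro u G hG hM
  have hHar : Integrable (fun x => ‖u x‖ ^ 2 / ‖x‖ ^ 2) := by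
    have := (h1 u G hG 0).1
    simpa using this
  have hInv : Integrable (fun x => ‖u x‖ ^ 2 / ‖x‖) := by
    have := ((h2 u G hG).1 0).1
    simpa using this
  have hM0 := hM 0
  simp only [pow_zero, one_mul] at hM0
  refine ⟨?_, ?_⟩
  · intro f hf hgr
    obtain ⟨C, n, hC⟩ := hgr
    have hfm := aesm_rad hf
    constructor
    · have hdom : Integrable (fun x : E3 => |C| * (‖u x‖ ^ 2 / ‖x‖ + ‖x‖ ^ n * ‖u x‖ ^ 2)) :=
        (hInv.add (hM n).1).const_mul _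
      refine hdom.mono' (hfm.mul (aesm_usq hG)) ?_
      filter_upwards [ae_pos] with x hx
      have h3 := hC ‖x‖ hx
      have h4 : 0 ≤ 1 / ‖x‖ + ‖x‖ ^ n := by positivity
      have h5 : |f ‖x‖| ≤ |C| * (1 / ‖x‖ + ‖x‖ ^ n) :=
        h3.trans (mul_le_mul_of_nonneg_right (le_abs_self C) h4)
      rw [Real.norm_eq_abs, abs_mul, abs_of_nonneg (sq_nonneg ‖u x‖)]
      calc |f ‖x‖| * ‖u x‖ ^ 2 ≤ (|C| * (1 / ‖x‖ + ‖x‖ ^ n)) * ‖u x‖ ^ 2 :=
            mul_le_mul_of_nonneg_right h5 (sq_nonneg _)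
        _ = |C| * (‖u x‖ ^ 2 / ‖x‖ + ‖x‖ ^ n * ‖u x‖ ^ 2) := by ring
    · have hdom : Integrable (fun x : E3 => |C| * ((‖u x‖ ^ 2 / ‖x‖ ^ 2 + g2 G x)
          + (‖x‖ ^ n * ‖u x‖ ^ 2 + ‖x‖ ^ n * g2 G x))) :=
        ((hHar.add hM0.2).add ((hM n).1.add (hM n).2)).const_mul _
      refine hdom.mono' (hfm.mul (aesm_ur hG)) ?_
      filter_upwards [ae_pos] with x hx
      have h3 := hC ‖x‖ hx
      have h4 : 0 ≤ 1 / ‖x‖ + ‖x‖ ^ n := by positivity
      have h5 : |f ‖x‖| ≤ |C| * (1 / ‖x‖ + ‖x‖ ^ n) :=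
        h3.trans (mul_le_mul_of_nonneg_right (le_abs_self C) h4)
      have h6 := ur_le u G x
      have h7 := dr_sq_le G x
      have h8 : 1 / ‖x‖ * |ur u G x| ≤ ‖u x‖ ^ 2 / ‖x‖ ^ 2 + g2 G x := by
        have h9 : 1 / ‖x‖ * |ur u G x| ≤ (‖u x‖ / ‖x‖) * ‖dr G x‖ := by
          calc 1 / ‖x‖ * |ur u G x| ≤ 1 / ‖x‖ * (‖u x‖ * ‖dr G x‖) :=
                mul_le_mul_of_nonneg_left h6 (by positivity)
            _ = (‖u x‖ / ‖x‖) * ‖dr G x‖ := by ring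
        have h10 : ‖u x‖ ^ 2 / ‖x‖ ^ 2 = (‖u x‖ / ‖x‖) ^ 2 := by rw [div_pow]
        rw [h10]
        nlinarith [sq_nonneg (‖u x‖ / ‖x‖ - ‖dr G x‖), sq_nonneg (‖u x‖ / ‖x‖),
          sq_nonneg (‖dr G x‖)]
      have h11 : ‖x‖ ^ n * |ur u G x| ≤ ‖x‖ ^ n * ‖u x‖ ^ 2 + ‖x‖ ^ n * g2 G x := by
        rw [← mul_add]
        exact mul_le_mul_of_nonneg_left (ur_le2 u G x) (by positivity)
      rw [Real.norm_eq_abs, abs_mul]
      calc |f ‖x‖| * |ur u G x| ≤ (|C| * (1 / ‖x‖ + ‖x‖ ^ n)) * |ur u G x| :=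
            mul_le_mul_of_nonneg_right h5 (abs_nonneg _)
        _ = |C| * (1 / ‖x‖ * |ur u G x| + ‖x‖ ^ n * |ur u G x|) := by ring
        _ ≤ _ := mul_le_mul_of_nonneg_left (add_le_add h8 h11) (abs_nonneg _)
  · intro f hf hgr
    obtain ⟨C, n, hC⟩ := hgr
    have hfm := aesm_rad hf
    have hdom : Integrable (fun x : E3 => |C| * (g2 G x + ‖x‖ ^ n * g2 G x)) :=
      (hM0.2.add (hM n).2).const_mul _
    have hb : ∀ᵐ x : E3, |f ‖x‖| * g2 G x ≤ |C| * (g2 G x + ‖x‖ ^ n * g2 G x) := by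
      filter_upwards [ae_pos] with x hx
      have h3 := hC ‖x‖ hx
      have h4 : 0 ≤ 1 + ‖x‖ ^ n := by positivity
      have h5 : |f ‖x‖| ≤ |C| * (1 + ‖x‖ ^ n) :=
        h3.trans (mul_le_mul_of_nonneg_right (le_abs_self C) h4)
      calc |f ‖x‖| * g2 G x ≤ (|C| * (1 + ‖x‖ ^ n)) * g2 G x :=
            mul_le_mul_of_nonneg_right h5 (g2_nn G x)
        _ = _ := by ring
    constructor
    · refine hdom.mono' (hfm.mul (aesm_g2 hG)) ?_
      filter_upwards [hb] with x hx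
      rw [Real.norm_eq_abs, abs_mul, abs_of_nonneg (g2_nn G x)]
      exact hx
    · refine hdom.mono' (hfm.mul ((aesm_dr hG).norm.pow 2)) ?_
      filter_upwards [hb] with x hx
      rw [Real.norm_eq_abs, abs_mul, abs_of_nonneg (sq_nonneg ‖dr G x‖)]
      exact (mul_le_mul_of_nonneg_left (dr_sq_le G x) (abs_nonneg _)).trans hx

end Pool.Agent.H92.HN
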