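import Pool.Agent.H92.HN.Kn

/-!
# Positive `lam`: compact support, absence of solutions
-/

namespace Pool.Agent.H92.HN

open Pool.Agent.H99.HM Pool.Agent.H99.HN
open MeasureTheory Set Filter Topology Real
open scoped ContDiff

/-- Hardy type inequality with weights -/
theorem kin_pow (hk : T_kin) (hd : T_div) (hp : T_pint) {u : E3 → ℂ} {G : Fin 3 → E3 → ℂ}
    (hG : IsH1 u G) (hM : Mom u G) (m : ℕ) (c : ℝ) :
    2 * c * (∫ x : E3, ‖x‖ ^ (2 * m + 2) * ‖u x‖ ^ 2)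
      - c ^ 2 * (∫ x : E3, ‖x‖ ^ (2 * m + 4) * ‖u x‖ ^ 2) ≤
    (∫ x : E3, ‖x‖ ^ (2 * m + 2) * ‖dr G x‖ ^ 2)
      - ((m : ℝ) + 3 / 2) ^ 2 * ∫ x : E3, ‖x‖ ^ (2 * m) * ‖u x‖ ^ 2 := by
  have i0 := (int_pow hp hG hM (2 * m)).1
  have i2 := (int_pow hp hG hM (2 * m + 2)).1
  have i4 := (int_pow hp hG hM (2 * m + 4)).1
  set B : ℝ → ℝ := fun r => 1 / 2 * r ^ (2 * m + 1) + c * r ^ (2 * m + 3) with hB
  set B1 : ℝ → ℝ := fun r => 1 / 2 * ((((2 * m : ℕ) : ℝ) + 1) * r ^ (2 * m))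
    + c * ((((2 * m + 2 : ℕ) : ℝ) + 1) * r ^ (2 * m + 2)) with hB1
  have hBc : C1 B B1 := by
    refine ⟨fun r hr => ?_, by rw [hB1]; fun_prop⟩
    exact (((c1_pow (2 * m)).der r hr).const_mul (1 / 2)).add
      (((c1_pow (2 * m + 2)).der r hr).const_mul c)
  have hF : Flux (fun r => r ^ (2 * m + 1 + 1)) (fun r => (((2 * m + 1 : ℕ) : ℝ) + 1) * r ^ (2 * m + 1))
      B B1 := by
    refine ⟨hBc, ?_, ?_, ?_⟩
    · exact gr_add (gr_cmul (gr_pow _) _) (gr_cmul (gr_pow _) _)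
    · exact gr_to1 (gr_add (gr_cmul (gr_cmul (gr_pow _) _) _) (gr_cmul (gr_cmul (gr_pow _) _) _))
    · refine gr_to1 (gr_congr (gr_add (gr_cmul (gr_pow (2 * m)) ((m + 3 / 2) ^ 2))
        (gr_add (gr_cmul (gr_pow (2 * m + 2)) (2 * (m + 3 / 2) * c))
          (gr_cmul (gr_pow (2 * m + 4)) (c ^ 2)))) fun r hr => ?_)
      rw [hB]
      push_cast
      field_simp
      ring
  have h := hk u G hG hM _ _ B B1 (fun r hr => by positivity) (c1_pow (2 * m + 1)) (gr_pow _)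
    (gr_cmul (gr_pow _) _) hF
  have hdiv := div_pow' hd hG hM (2 * m)
  have e1 : ∫ x : E3, (B1 ‖x‖ + 2 * B ‖x‖ / ‖x‖ - (B ‖x‖ + (((2 * m + 1 : ℕ) : ℝ) + 1) *
      ‖x‖ ^ (2 * m + 1) / 2) ^ 2 / ‖x‖ ^ (2 * m + 1 + 1)) * ‖u x‖ ^ 2 =
      ((m + 3 / 2) - (m + 3 / 2) ^ 2) * (∫ x : E3, ‖x‖ ^ (2 * m) * ‖u x‖ ^ 2)
      + (2 * c * (∫ x : E3, ‖x‖ ^ (2 * m + 2) * ‖u x‖ ^ 2)
      - c ^ 2 * (∫ x : E3, ‖x‖ ^ (2 * m + 4) * ‖u x‖ ^ 2)) := by
    obtain ⟨k1, j1⟩ := icmul i0 (((m : ℝ) + 3 / 2) - (m + 3 / 2) ^ 2)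
    obtain ⟨k2, j2⟩ := icmul i2 (2 * c)
    obtain ⟨k3, j3⟩ := icmul i4 (c ^ 2)
    obtain ⟨k4, j4⟩ := isub k2 k3
    obtain ⟨k5, j5⟩ := iadd k1 k4
    rw [← j1, ← j2, ← j3, ← j4, ← j5]
    refine integral_congr_ae ?_
    filter_upwards [ae_pos] with x hx
    rw [hB, hB1]
    push_cast
    field_simp
    ring
  have e2 : ∫ x : E3, (((2 * m + 1 : ℕ) : ℝ) + 1) * ‖x‖ ^ (2 * m + 1) * ur u G x =
      (2 * m + 2) * ∫ x : E3, ‖x‖ ^ (2 * m + 1) * ur u G x := by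
    rw [← integral_const_mul]
    refine integral_congr_ae (Eventually.of_forall fun x => ?_)
    push_cast
    ring
  rw [e1, e2] at h
  push_cast at hdiv
  set P := ∫ x : E3, ‖x‖ ^ (2 * m) * ‖u x‖ ^ 2
  set a := ∫ x : E3, ‖x‖ ^ (2 * m + 1) * ur u G x
  have ea : a = -((2 * m + 3) / 2 * P) := by linarith
  rw [ea] at h
  have e3 : ∫ x : E3, ‖x‖ ^ (2 * m + 1 + 1) * ‖dr G x‖ ^ 2 =
      ∫ x : E3, ‖x‖ ^ (2 * m + 2) * ‖dr G x‖ ^ 2 := rfl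
  rw [e3] at h
  linarith

/-- the right side of the identity `T_kn`, upper bound -/
theorem rhs_le (hp : T_pint) (hb : T_hb) (hz : T_zf) {u : E3 → ℂ} {G : Fin 3 → E3 → ℂ}
    (hG : IsH1 u G) (hM : Mom u G) (m : ℕ) {F : E3 → ℝ} (hF : Integrable F)
    (hle : ∀ᵐ x : E3, ‖x‖ ^ (2 * m + 2) * (hartree u x + |Zf u x| / 2) * ‖u x‖ ^ 2 ≤ F x) :
    ∫ x : E3, ‖x‖ ^ (2 * (m + 1)) * (-1 / (2 * ‖x‖) + hartree u x - Zf u x / 2) * ‖u x‖ ^ 2 ≤
      ∫ x, F x := by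
  have i1 := (int_pow hp hG hM (2 * m + 1)).1
  have i2 := int_hartree hb hG (int_pow hp hG hM (2 * m + 2)).1
  have i3 := int_zf hp hz hG hM (2 * m + 2)
  have hI : Integrable (fun x : E3 => ‖x‖ ^ (2 * (m + 1)) *
      (-1 / (2 * ‖x‖) + hartree u x - Zf u x / 2) * ‖u x‖ ^ 2) := by
    refine ((i2.sub (i1.const_mul (1 / 2))).sub (i3.const_mul (1 / 2))).congr ?_
    filter_upwards [ae_pos] with x hx
    have h2 : ‖x‖ ^ (2 * (m + 1)) = ‖x‖ ^ (2 * m + 2) := by congr 1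
    have h3 : ‖x‖ ^ (2 * m + 2) * (-1 / (2 * ‖x‖)) = - (1 / 2 * ‖x‖ ^ (2 * m + 1)) := by
      field_simp
      ring
    simp only [Pi.sub_apply]
    rw [h2]
    calc ‖x‖ ^ (2 * m + 2) * ‖u x‖ ^ 2 * hartree u x
          - 1 / 2 * (‖x‖ ^ (2 * m + 1) * ‖u x‖ ^ 2)
          - 1 / 2 * (‖x‖ ^ (2 * m + 2) * ‖u x‖ ^ 2 * Zf u x) =
        (-(1 / 2 * ‖x‖ ^ (2 * m + 1))) * ‖u x‖ ^ 2
          + ‖x‖ ^ (2 * m + 2) * ‖u x‖ ^ 2 * hartree u x
          - 1 / 2 * (‖x‖ ^ (2 * m + 2) * ‖u x‖ ^ 2 * Zf u x) := by ring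
      _ = _ := by rw [← h3]; ring
  refine integral_mono_ae hI hF ?_
  filter_upwards [ae_pos, hle] with x hx hx2
  refine le_trans ?_ hx2
  have h2 : ‖x‖ ^ (2 * (m + 1)) = ‖x‖ ^ (2 * m + 2) := by congr 1
  have h3 : -1 / (2 * ‖x‖) ≤ 0 := by
    rw [neg_div]
    have : 0 ≤ 1 / (2 * ‖x‖) := by positivity
    linarith
  have h4 : -1 / (2 * ‖x‖) + hartree u x - Zf u x / 2 ≤ hartree u x + |Zf u x| / 2 := by
    have := neg_abs_le (Zf u x)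
    linarith
  rw [h2]
  exact mul_le_mul_of_nonneg_right (mul_le_mul_of_nonneg_left h4 (by positivity)) (sq_nonneg _)

theorem t_cpt (hkn : T_kn) (hk : T_kin) (hd : T_div) (hb : T_hb) (hz : T_zf) (hp : T_pint) :
    T_cpt := by
  intro u lam G hS hG hM hlam
  obtain ⟨b1, b2, b3, b4⟩ := hb u G hG
  obtain ⟨z1, z2, z3⟩ := hz u G hG
  obtain ⟨R1, hR1, hR1'⟩ := b3 (lam / 4) (by positivity)
  obtain ⟨R2, hR2, hR2'⟩ := z3 hM (lam / 2) (by positivity)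
  have hg : 0 ≤ ∫ y, g2 G y := integral_nonneg (g2_nn G)
  have hmass : 0 ≤ mass u := integral_nonneg fun x => by positivity
  set R0 := max R1 R2 with hR0
  have hR0p : 0 < R0 := lt_of_lt_of_le hR1 (le_max_left _ _)
  set C := (∫ y, g2 G y) + mass u + 2 * (∫ y, g2 G y) * R0 with hC
  have hC0 : 0 ≤ C := by positivity
  have iu := (int_pow hp hG hM 0).1
  simp only [pow_zero, one_mul] at iu
  -- pointwise bound
  have hW : ∀ x : E3, ∀ k : ℕ, ‖x‖ ^ k * (hartree u x + |Zf u x| / 2) * ‖u x‖ ^ 2 ≤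
      lam / 2 * (‖x‖ ^ k * ‖u x‖ ^ 2) + C * R0 ^ k * ‖u x‖ ^ 2 := by
    intro x k
    have hh := (b1 x).2
    have hzz := (z1 x).2
    rcases le_total R0 ‖x‖ with h | h
    · have h1 := hR1' x ((le_max_left _ _).trans h)
      have h2 := hR2' x ((le_max_right _ _).trans h)
      have h3 : hartree u x + |Zf u x| / 2 ≤ lam / 2 := by linarith
      have h4 : ‖x‖ ^ k * (hartree u x + |Zf u x| / 2) * ‖u x‖ ^ 2 ≤
          ‖x‖ ^ k * (lam / 2) * ‖u x‖ ^ 2 :=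
        mul_le_mul_of_nonneg_right (mul_le_mul_of_nonneg_left h3 (by positivity)) (sq_nonneg _)
      have h5 : 0 ≤ C * R0 ^ k * ‖u x‖ ^ 2 := by positivity
      calc _ ≤ _ := h4
        _ = lam / 2 * (‖x‖ ^ k * ‖u x‖ ^ 2) := by ring
        _ ≤ _ := by linarith
    · have h3 : hartree u x + |Zf u x| / 2 ≤ C := by
        have : |Zf u x| / 2 ≤ 2 * (∫ y, g2 G y) * R0 := by
          have h5 : 4 * (∫ y, g2 G y) * ‖x‖ ≤ 4 * (∫ y, g2 G y) * R0 :=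
            mul_le_mul_of_nonneg_left h (by positivity)
          linarith
        rw [hC]
        linarith
      have h6 : 0 ≤ hartree u x + |Zf u x| / 2 := by
        have := abs_nonneg (Zf u x)
        linarith
      have h7 : ‖x‖ ^ k ≤ R0 ^ k := pow_le_pow_left₀ (norm_nonneg _) h k
      have h4 : ‖x‖ ^ k * (hartree u x + |Zf u x| / 2) * ‖u x‖ ^ 2 ≤
          R0 ^ k * C * ‖u x‖ ^ 2 :=
        mul_le_mul_of_nonneg_right (mul_le_mul h7 h3 h6 (by positivity)) (sq_nonneg _)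
      have h5 : 0 ≤ lam / 2 * (‖x‖ ^ k * ‖u x‖ ^ 2) := by positivity
      calc _ ≤ _ := h4
        _ = C * R0 ^ k * ‖u x‖ ^ 2 := by ring
        _ ≤ _ := by linarith
  -- moments
  have hI : ∀ m : ℕ, ∫ x : E3, ‖x‖ ^ (2 * m + 2) * ‖u x‖ ^ 2 ≤
      2 * C / lam * mass u * R0 ^ (2 * m + 2) := by
    intro m
    have iI := (int_pow hp hG hM (2 * m + 2)).1
    obtain ⟨k1, j1⟩ := icmul iI (lam / 2)
    obtain ⟨k2, j2⟩ := icmul iu (C * R0 ^ (2 * m + 2))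
    obtain ⟨k3, j3⟩ := iadd k1 k2
    have h1 := rhs_le hp hb hz hG hM m k3 (Eventually.of_forall fun x => hW x (2 * m + 2))
    rw [j3, j1, j2] at h1
    have h2 := hkn u lam G hS hG hM (m + 1) (by omega)
    have h3 := kin_pow hk hd hp hG hM m 0
    have e1 : ∫ x : E3, ‖x‖ ^ (2 * (m + 1)) * ‖u x‖ ^ 2 = ∫ x : E3, ‖x‖ ^ (2 * m + 2) * ‖u x‖ ^ 2 := by
      congr 1
    have e2 : ∫ x : E3, ‖x‖ ^ (2 * (m + 1)) * ‖dr G x‖ ^ 2 =
        ∫ x : E3, ‖x‖ ^ (2 * m + 2) * ‖dr G x‖ ^ 2 := by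
      congr 1
    have e3 : ∫ x : E3, ‖x‖ ^ (2 * (m + 1) - 2) * ‖u x‖ ^ 2 = ∫ x : E3, ‖x‖ ^ (2 * m) * ‖u x‖ ^ 2 := by
      congr 1
    rw [e1, e2, e3] at h2
    push_cast at h2
    set I := ∫ x : E3, ‖x‖ ^ (2 * m + 2) * ‖u x‖ ^ 2
    set Kr := ∫ x : E3, ‖x‖ ^ (2 * m + 2) * ‖dr G x‖ ^ 2
    set P := ∫ x : E3, ‖x‖ ^ (2 * m) * ‖u x‖ ^ 2
    have h4 : 0 ≤ Kr - ((m : ℝ) + 3 / 2) ^ 2 * P := by
      have : 2 * (0 : ℝ) * I - 0 ^ 2 * (∫ x : E3, ‖x‖ ^ (2 * m + 4) * ‖u x‖ ^ 2) = 0 := by ring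
      linarith
    have h5 : 0 ≤ 2 * ((m : ℝ) + 1) * (Kr - ((m : ℝ) + 1 + 1 / 2) ^ 2 * P) := by
      have e : Kr - ((m : ℝ) + 1 + 1 / 2) ^ 2 * P = Kr - ((m : ℝ) + 3 / 2) ^ 2 * P := by ring
      rw [e]
      positivity
    have h6 : lam * I ≤ lam / 2 * I + C * R0 ^ (2 * m + 2) * ∫ x : E3, ‖u x‖ ^ 2 := by linarith
    have h7 : lam / 2 * I ≤ C * R0 ^ (2 * m + 2) * mass u := by
      unfold mass
      linarith
    have h8 : I ≤ C * R0 ^ (2 * m + 2) * mass u / (lam / 2) := by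
      rw [le_div_iff₀ (by positivity)]
      linarith
    refine h8.trans (le_of_eq ?_)
    field_simp
  refine ⟨2 * R0, by positivity, ?_⟩
  -- conclusion
  set A : Set E3 := {x | 2 * R0 < ‖x‖} with hA
  have hAm : MeasurableSet A := measurableSet_lt measurable_const measurable_norm
  have iA : Integrable (A.indicator fun x => ‖u x‖ ^ 2) := iu.indicator hAm
  have hnn : 0 ≤ ∫ x, A.indicator (fun x => ‖u x‖ ^ 2) x :=
    integral_nonneg fun x => indicator_nonneg (fun x _ => sq_nonneg _) x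
  have hsm : ∀ m : ℕ, ∫ x, A.indicator (fun x => ‖u x‖ ^ 2) x ≤
      2 * C / lam * mass u * (1 / 4) ^ (m + 1) := by
    intro m
    have h1 : (2 * R0) ^ (2 * m + 2) * ∫ x, A.indicator (fun x => ‖u x‖ ^ 2) x ≤
        ∫ x : E3, ‖x‖ ^ (2 * m + 2) * ‖u x‖ ^ 2 := by
      rw [← integral_const_mul]
      refine integral_mono (iA.const_mul _) (int_pow hp hG hM (2 * m + 2)).1 fun x => ?_
      by_cases hx : x ∈ A
      · simp only [indicator_of_mem hx]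
        refine mul_le_mul_of_nonneg_right (pow_le_pow_left₀ (by positivity) ?_ _) (sq_nonneg _)
        exact (le_of_lt hx)
      · simp only [indicator_of_notMem hx, mul_zero]
        positivity
    have h2 := h1.trans (hI m)
    have e : (2 * R0) ^ (2 * m + 2) = 4 ^ (m + 1) * R0 ^ (2 * m + 2) := by
      rw [mul_pow]
      congr 1
      rw [show 2 * m + 2 = 2 * (m + 1) by ring, pow_mul]
      norm_num
    rw [e] at h2
    have h3 : (0 : ℝ) < R0 ^ (2 * m + 2) := by positivity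
    have h4 : (4 : ℝ) ^ (m + 1) * ∫ x, A.indicator (fun x => ‖u x‖ ^ 2) x ≤ 2 * C / lam * mass u := by
      have h5 : R0 ^ (2 * m + 2) * (4 ^ (m + 1) * ∫ x, A.indicator (fun x => ‖u x‖ ^ 2) x) ≤
          R0 ^ (2 * m + 2) * (2 * C / lam * mass u) := by
        calc _ = 4 ^ (m + 1) * R0 ^ (2 * m + 2) * ∫ x, A.indicator (fun x => ‖u x‖ ^ 2) x := by ring
          _ ≤ _ := h2
          _ = _ := by ring
      exact le_of_mul_le_mul_left h5 h3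
    have h6 : (1 / 4 : ℝ) ^ (m + 1) = 1 / 4 ^ (m + 1) := by rw [one_div_pow]
    rw [h6, mul_one_div, le_div_iff₀ (by positivity)]
    linarith
  have hz0 : ∫ x, A.indicator (fun x => ‖u x‖ ^ 2) x = 0 := by
    refine le_antisymm ?_ hnn
    have hl : Tendsto (fun m : ℕ => 2 * C / lam * mass u * (1 / 4 : ℝ) ^ (m + 1)) atTop (𝓝 0) := by
      have h1 : Tendsto (fun m : ℕ => (1 / 4 : ℝ) ^ (m + 1)) atTop (𝓝 0) :=
        (tendsto_pow_atTop_nhds_zero_of_lt_one (by norm_num) (by norm_num)).comp (tendsto_add_atTop_nat 1)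
      simpa using h1.const_mul (2 * C / lam * mass u)
    exact ge_of_tendsto' hl hsm
  have hae := (integral_eq_zero_iff_of_nonneg
    (fun x => indicator_nonneg (fun x _ => sq_nonneg _) x) iA).1 hz0
  filter_upwards [hae] with x hx hxA
  have hxm : x ∈ A := hxA
  rw [indicator_of_mem hxm] at hx
  simpa using hx

theorem t_pos3 (hm : T_momp) (hcp : T_cpt) (hkn : T_kn) (hk : T_kin) (hb : T_hb) (hz : T_zf)
    (hp : T_pint) (hd : T_div) : T_pos3 := by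
  intro u lam hS hlam
  obtain ⟨G, hG⟩ := hS.1
  have hM := hm u lam G hS hG hlam
  obtain ⟨R, hR, hR0⟩ := hcp u lam G hS hG hM hlam
  obtain ⟨b1, b2, b3, b4⟩ := hb u G hG
  obtain ⟨z1, z2, z3⟩ := hz u G hG
  have hg : 0 ≤ ∫ y, g2 G y := integral_nonneg (g2_nn G)
  have hmass : 0 ≤ mass u := integral_nonneg fun x => by positivity
  set C := (∫ y, g2 G y) + mass u + 2 * (∫ y, g2 G y) * R with hC
  have hC0 : 0 ≤ C := by positivity
  obtain ⟨m, hmm⟩ := exists_nat_gt (C * R ^ 2)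
  have iI := (int_pow hp hG hM (2 * m + 2)).1
  have i4 := (int_pow hp hG hM (2 * m + 4)).1
  have h2 := hkn u lam G hS hG hM (m + 1) (by omega)
  have h3 := kin_pow hk hd hp hG hM m (1 / R ^ 2)
  obtain ⟨k1, j1⟩ := icmul iI C
  have h1 := rhs_le hp hb hz hG hM m k1 (by
    filter_upwards [hR0] with x hx
    rcases lt_or_ge R ‖x‖ with h | h
    · rw [hx h]
      simp
    · have hh := (b1 x).2
      have hzz := (z1 x).2
      have h3 : hartree u x + |Zf u x| / 2 ≤ C := by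
        have : |Zf u x| / 2 ≤ 2 * (∫ y, g2 G y) * R := by
          have h5 : 4 * (∫ y, g2 G y) * ‖x‖ ≤ 4 * (∫ y, g2 G y) * R :=
            mul_le_mul_of_nonneg_left h (by positivity)
          linarith
        rw [hC]
        linarith
      calc ‖x‖ ^ (2 * m + 2) * (hartree u x + |Zf u x| / 2) * ‖u x‖ ^ 2 ≤
          ‖x‖ ^ (2 * m + 2) * C * ‖u x‖ ^ 2 :=
            mul_le_mul_of_nonneg_right (mul_le_mul_of_nonneg_left h3 (by positivity)) (sq_nonneg _)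
        _ = _ := by ring)
  rw [j1] at h1
  have e1 : ∫ x : E3, ‖x‖ ^ (2 * (m + 1)) * ‖u x‖ ^ 2 = ∫ x : E3, ‖x‖ ^ (2 * m + 2) * ‖u x‖ ^ 2 := by
    congr 1
  have e2 : ∫ x : E3, ‖x‖ ^ (2 * (m + 1)) * ‖dr G x‖ ^ 2 =
      ∫ x : E3, ‖x‖ ^ (2 * m + 2) * ‖dr G x‖ ^ 2 := by
    congr 1
  have e3 : ∫ x : E3, ‖x‖ ^ (2 * (m + 1) - 2) * ‖u x‖ ^ 2 = ∫ x : E3, ‖x‖ ^ (2 * m) * ‖u x‖ ^ 2 := by
    congr 1
  rw [e1, e2, e3] at h2
  push_cast at h2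
  have h4 : ∫ x : E3, ‖x‖ ^ (2 * m + 4) * ‖u x‖ ^ 2 ≤
      R ^ 2 * ∫ x : E3, ‖x‖ ^ (2 * m + 2) * ‖u x‖ ^ 2 := by
    rw [← integral_const_mul]
    refine integral_mono_ae i4 (iI.const_mul _) ?_
    filter_upwards [hR0] with x hx
    rcases lt_or_ge R ‖x‖ with h | h
    · rw [hx h]
      simp
    · have h5 : ‖x‖ ^ 2 ≤ R ^ 2 := pow_le_pow_left₀ (norm_nonneg _) h 2
      calc ‖x‖ ^ (2 * m + 4) * ‖u x‖ ^ 2 = ‖x‖ ^ 2 * (‖x‖ ^ (2 * m + 2) * ‖u x‖ ^ 2) := by ring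
        _ ≤ _ := mul_le_mul_of_nonneg_right h5 (by positivity)
  have hInn : 0 ≤ ∫ x : E3, ‖x‖ ^ (2 * m + 2) * ‖u x‖ ^ 2 :=
    integral_nonneg fun x => by positivity
  have hI0 : ∫ x : E3, ‖x‖ ^ (2 * m + 2) * ‖u x‖ ^ 2 = 0 := by
    set I := ∫ x : E3, ‖x‖ ^ (2 * m + 2) * ‖u x‖ ^ 2
    set I4 := ∫ x : E3, ‖x‖ ^ (2 * m + 4) * ‖u x‖ ^ 2
    set Kr := ∫ x : E3, ‖x‖ ^ (2 * m + 2) * ‖dr G x‖ ^ 2
    set P := ∫ x : E3, ‖x‖ ^ (2 * m) * ‖u x‖ ^ 2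
    have h5 : 1 / R ^ 2 * I ≤ Kr - ((m : ℝ) + 1 + 1 / 2) ^ 2 * P := by
      have h6 : (1 / R ^ 2) ^ 2 * I4 ≤ 1 / R ^ 2 * I := by
        calc (1 / R ^ 2) ^ 2 * I4 ≤ (1 / R ^ 2) ^ 2 * (R ^ 2 * I) :=
              mul_le_mul_of_nonneg_left h4 (by positivity)
          _ = 1 / R ^ 2 * I := by
              field_simp
      have e : Kr - ((m : ℝ) + 1 + 1 / 2) ^ 2 * P = Kr - ((m : ℝ) + 3 / 2) ^ 2 * P := by ring
      rw [e]
      linarith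
    have h7 : 2 * ((m : ℝ) + 1) * (1 / R ^ 2 * I) ≤
        2 * ((m : ℝ) + 1) * (Kr - ((m : ℝ) + 1 + 1 / 2) ^ 2 * P) :=
      mul_le_mul_of_nonneg_left h5 (by positivity)
    have h8 : lam * I + 2 * ((m : ℝ) + 1) * (1 / R ^ 2 * I) ≤ C * I := by linarith
    have h9 : C < 2 * ((m : ℝ) + 1) * (1 / R ^ 2) := by
      rw [mul_one_div, lt_div_iff₀ (by positivity)]
      have : (0 : ℝ) ≤ m := Nat.cast_nonneg m
      linarith
    have h10 : 0 < lam + 2 * ((m : ℝ) + 1) * (1 / R ^ 2) - C := by linarith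
    have h11 : (lam + 2 * ((m : ℝ) + 1) * (1 / R ^ 2) - C) * I ≤ 0 := by linarith
    by_contra hne
    have hpos : 0 < I := lt_of_le_of_ne hInn (Ne.symm hne)
    have := mul_pos h10 hpos
    linarith
  have hae := (integral_eq_zero_iff_of_nonneg (fun x => by positivity) iI).1 hI0
  unfold mass
  have : ∫ x : E3, ‖u x‖ ^ 2 = ∫ x : E3, (0 : ℝ) := by
    refine integral_congr_ae ?_
    filter_upwards [hae, ae_pos] with x hx hx0
    simp only [Pi.zero_apply] at hx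
    have h5 : ‖x‖ ^ (2 * m + 2) ≠ 0 := by positivity
    rcases mul_eq_zero.1 hx with h | h
    · exact absurd h h5
    · exact h
  rw [this, integral_zero]

end Pool.Agent.H92.HN
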